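import Mathlib
import Pool.Agent.W484.CK.NCTate
import Pool.Agent.T2h14.NR.Stm
import Pool.Agent.Y154.BQ.Defs
import Pool.Agent.W521.Descent

/-!
# Products of varieties with simple Frobenius: statements
-/

set_option autoImplicit false

open CategoryTheory AlgebraicGeometry

universe u v w

namespace Pool.Agent.T2h14.PW.Stm

open Polynomial Pool.Agent.H914 Pool.Agent.H914.VarClass Pool.Agent.H914.VarClass.Obj
  Pool.Agent.W492.BB Pool.Agent.W484.CK Pool.Agent.T2h14.NR.Stm Pool.Agent.Y154.BQ

/-- Let `ρ` be a root of a nonzero rational polynomial all of whose roots lie, up to powers, in a group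
generated by the nonzero elements of `E` and `r` numbers. Then each relation
`((z 1 ⋯ z n) ^ s * ρ) ^ N = (Q ^ c) ^ N`, `Q = q ^ s`, where `n, s, N > 0` and `z k` is a root of
`f (i k)`, contains a pair `z k * z l = q ^ (w i)` of roots of the same `f i`, `k ≠ l`. -/
def NoRelations (E : IntermediateField ℚ ℂ) (q r : ℕ) {I : Type} (w : I → ℕ) (f : I → ℤ[X]) : Prop :=
  ∀ χ : ℚ[X], χ ≠ 0 → RankLE E r {ρ : ℂ | aeval ρ χ = 0} → ∀ ρ : ℂ, aeval ρ χ = 0 →
    ∀ s : ℕ, 0 < s → ∀ n : ℕ, 0 < n → ∀ (c : ℤ) (N : ℕ), 0 < N → ∀ (i : Fin n → I) (z : Fin n → ℂ),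
      (∀ k, aeval (z k) (f (i k)) = 0) →
      ((∏ k, z k) ^ s * ρ) ^ N = (((q : ℂ) ^ s) ^ c) ^ N →
        ∃ k l, k ≠ l ∧ i k = i l ∧ z k * z l = (q : ℂ) ^ w (i k)

/-- Explicit families `f i` of polynomials without relations. Let `M > 0` be a common multiple of the
weights, `M = e i * w i`, and `F i` the characteristic polynomials of Frobenius over the fields with
`q ^ (e i)` elements: a monic integral polynomial of degree `2 g i` with constant term
`(q ^ M) ^ g i`, all of whose roots have absolute value `√(q ^ M)`, and which vanishes at the powers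
`z ^ (e i)` of the roots `z` of `f i`, where `f i` is monic of the same degree. The `F i` are irreducible
over `ℚ`, not supersingular, and have pairwise different splitting fields, none of which is contained in
`E`; for each `i` either `g i` is an odd prime number and the fields generated by the roots of `F i`
contain no imaginary quadratic field, or the representation of the odd functions on the roots of `F i`
is irreducible; and `r < g i`. -/
def ExplicitFamily (E : IntermediateField ℚ ℂ) (q r : ℕ) {I : Type} (w : I → ℕ)
    (f : I → ℤ[X]) : Prop :=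
  ∃ (M : ℕ) (e g : I → ℕ) (F : I → ℤ[X]), 0 < M ∧ ∀ i,
    e i * w i = M ∧ F i ∈ Pool.Agent.W521.Descent.weilPolys (q ^ M) (g i) ∧
    Irreducible ((F i).map (Int.castRingHom ℚ)) ∧ NotSupersingular (q ^ M) (F i) ∧
    (((g i).Prime ∧ g i ≠ 2 ∧ NoImaginaryQuadratic (F i)) ∨ IrreducibleOdd (q ^ M) (F i)) ∧
    (∀ j, i ≠ j → splitField (F i) ≠ splitField (F j)) ∧ ¬ splitField (F i) ≤ E ∧ r < g i ∧
    (f i).natDegree = 2 * g i ∧ ∀ z : ℂ, aeval z (f i) = 0 → aeval (z ^ e i) (F i) = 0

variable {k : Type u} [Field k] {𝒱 : VarClass k} {C : TheoryData.{u, v, 0} 𝒱 ℚ} {K : Type w}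
  [Field K] (H : WeilTheoryData.{u, v, w} C K) {X Y Z W : 𝒱.Obj}

/-- The product of the cohomology is graded commutative. -/
def IsGradedCommutative : Prop :=
  ∀ (X : 𝒱.Obj) (i j : ℕ) (a b : H.A X), H.Deg i a → H.Deg j b →
    H.mul a b = (-1 : K) ^ (i * j) • H.mul b a

/-- `c` is the class of an algebraic cycle, with rational coefficients. -/
def IsCycleClass (c : H.A X) : Prop := ∃ (i : ℕ) (z : C.A X), C.Deg i z ∧ c = H.cl z

/-- `c` is an eigenvector of `π` of degree `w` with eigenvalue `z ^ s`, where `z` is a root of `p`. -/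
def IsRootVector (π : X ⟶ X) (s w : ℕ) (p : ℤ[X]) (c : H.A X) : Prop :=
  H.Deg w c ∧ ∃ z : K, aeval z p = 0 ∧ H.up π c = z ^ s • c

/-- `X` is a variety over the field with `Q = q ^ s` elements with Frobenius endomorphism `π` and with
simple Frobenius in the middle degree `w = dim X`: its cohomology is spanned by the classes of
algebraic cycles and by eigenvectors of Frobenius in `H^w(X)` with eigenvalues `z ^ s`, `z` a root of
`p`, and the eigenspaces for these eigenvalues have dimension at most one. For example, `X` is a K3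
surface, or a complete intersection, which comes from the field with `q` elements, and `p` is the
characteristic polynomial of Frobenius on the transcendental (primitive) part of `H^w(X)`. -/
structure HasSimpleFrobenius (π : X ⟶ X) (q s w : ℕ) (p : ℤ[X]) : Prop where
  frobenius : IsFrobenius C π (q ^ s)
  middle : w = X.dim
  spanned : ∀ c : H.A X, InSpan H (fun a => IsCycleClass H a ∨ IsRootVector H π s w p a) c
  simple : ∀ (z : K) (a b : H.A X), aeval z p = 0 → H.Deg w a → H.Deg w b →
    H.up π a = z ^ s • a → H.up π b = z ^ s • b → a ≠ 0 → ∃ c : K, b = c • a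

/-- `W`, with the endomorphism `πW`, is a product of finitely many of the `X i`, with their
endomorphisms `π i`; repetitions are allowed. -/
inductive IsProductOf {I : Type} (X : I → 𝒱.Obj) (π : ∀ i, X i ⟶ X i) :
    (W : 𝒱.Obj) → (W ⟶ W) → Prop
  | base (i : I) : IsProductOf X π (X i) (π i)
  | prod (W W' : 𝒱.Obj) (πW : W ⟶ W) (πW' : W' ⟶ W') :
      IsProductOf X π W πW → IsProductOf X π W' πW' → IsProductOf X π (W.prod W') (prodMap πW πW')

/-- The situation of the theorems: `W` is a product of finitely many varieties `X i` (with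
repetitions) over the field with `q ^ s` elements with simple Frobenius in the middle degree `w i`,
with polynomials `f i`; `πW` is its Frobenius endomorphism; `Z` is **any** variety such that the
eigenvalues of its Frobenius endomorphism `πZ` on the cohomology lie up to powers in a group
generated by the elements of the field `E` and `r` numbers; and `πW × πZ` acts on the Chow groups
of `W × Z` in the usual way. -/
structure IsSituation [CharZero K] (E : IntermediateField ℚ ℂ) (q r s : ℕ) {I : Type} (w : I → ℕ)
    (f : I → ℤ[X]) (πW : W ⟶ W) (πZ : Z ⟶ Z) : Prop where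
  standard : IsStandard H
  comm : IsGradedCommutative H
  pos : 0 < s
  product : ∃ (X : I → 𝒱.Obj) (π : ∀ i, X i ⟶ X i),
    (∀ i, HasSimpleFrobenius H (π i) q s (w i) (f i)) ∧ IsProductOf X π W πW
  frobenius : IsFrobenius C πW (q ^ s)
  rank : EigenvaluesOfRank H E r πZ
  frobenius_prod : IsFrobenius C (prodMap πW πZ) (q ^ s)

/-- `NCTateForProducts E q r w f`: for the Chow groups `C` with rational coefficients of all classes
`𝒱` of varieties over fields `k` (finite, in the intended use), every Weil cohomology theory `H` with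
coefficients in an algebraically closed field `K` of characteristic zero and all `W`, `Z` as in
`IsSituation`: the Frobenius invariants in the sum of the `H^(2i)(W)(i)` are combinations of classes
of algebraic cycles (Tate's conjecture for `W`), and there are classes `D j` of cycles of codimension
`deg j` on `W`, finitely many, such that for all direct summands `(Z, e)` of the noncommutative motive
of `Z` the Kunneth formula for the Frobenius invariants in the cohomology of `(W × Z, 1 × e)` holds,
and the Tate conjecture holds for `(W × Z, 1 × e)` if and only if it holds for `(Z, e)`. -/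
def NCTateForProducts (E : IntermediateField ℚ ℂ) (q r : ℕ) {I : Type} (w : I → ℕ)
    (f : I → ℤ[X]) : Prop :=
  ∀ (k : Type) [Field k] (𝒱 : VarClass k) (C : TheoryData.{0, 0, 0} 𝒱 ℚ) [IsChow C],
    IsoInvariant C → ∀ (K : Type) [Field K] [IsAlgClosed K] [CharZero K]
    (H : WeilTheoryData.{0, 0, 0} C K) [IsWeil H] (s : ℕ) (W Z : 𝒱.Obj) (πW : W ⟶ W)
    (πZ : Z ⟶ Z), IsSituation H E q r s w f πW πZ →
      (∀ c : H.A W, IsTateClass H πW (q ^ s) c → InSpan H (IsCycleClass H) c) ∧
      ∃ (J : Type) (_ : Fintype J) (deg : J → ℕ) (D : J → C.A W),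
        (∀ j, C.Deg (deg j) (D j)) ∧ ∀ e : C.A (Z.prod Z), IsIdempotent C e →
          TateKunneth H πW πZ (q ^ s) e D ∧
            (NCTateConjecture H (prodMap πW πZ) (q ^ s) (relative C W e) ↔
              NCTateConjecture H πZ (q ^ s) e)

/-- The Kunneth formula for the Chow groups of `W × Z` with rational coefficients: there are
cycles `D j` of codimension `deg j` on `W`, finitely many, such that every class in `CH^i(W × Z)` can
be written in a unique way as `∑ D j × z j` with `z j` in `CH^(i - deg j)(Z)`. -/
def ChowKunneth (C : TheoryData.{u, v, 0} 𝒱 ℚ) (W Z : 𝒱.Obj) : Prop :=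
  ∃ (J : Type) (_ : Fintype J) (deg : J → ℕ) (D : J → C.A W),
    (∀ j, C.Deg (deg j) (D j)) ∧
    ∀ (i : ℤ) (x : C.A (W.prod Z)), C.Deg i x → ∃! z : J → C.A Z,
      (∀ j, C.Deg (i - deg j) (z j)) ∧ x = ∑ j, times C (D j) (z j)

/-- There is a divisor on `W` whose top self-intersection number is not zero (`W` is projective). -/
def HasBigDivisor (C : TheoryData.{u, v, 0} 𝒱 ℚ) (W : 𝒱.Obj) : Prop :=
  ∃ (h : C.A W) (n : ℚ), C.Deg 1 h ∧ n ≠ 0 ∧ HasDegree C (h ^ W.dim) n

/-- `PairingForProducts E q r w f`: the following holds for the Chow groups `C` with rational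
coefficients of all classes `𝒱` of varieties over fields `k` (finite, in the intended use), every
Weil cohomology theory `H` with coefficients in an algebraically closed field `K` of characteristic
zero and all `W`, `Z` as in `IsSituation`, where `W` is projective and the homologically trivial
self-correspondences of `W × Z` of degree zero are nilpotent: the Kunneth formula holds for the Chow
groups of `W × Z`, and for every `n` the pairing
`CH^n(W × Z)_ℝ × CH^(dim W + dim Z - n)(W × Z)_ℝ → ℝ` is perfect if and only if the pairings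
`CH^m(Z)_ℝ × CH^(dim Z - m)(Z)_ℝ → ℝ` with `n - dim W ≤ m ≤ n` are perfect. -/
def PairingForProducts (E : IntermediateField ℚ ℂ) (q r : ℕ) {I : Type} (w : I → ℕ)
    (f : I → ℤ[X]) : Prop :=
  ∀ (k : Type) [Field k] (𝒱 : VarClass k) (C : TheoryData.{0, 0, 0} 𝒱 ℚ) [IsChow C]
    (K : Type) [Field K] [IsAlgClosed K] [CharZero K] (H : WeilTheoryData.{0, 0, 0} C K)
    [IsWeil H] (s : ℕ) (W Z : 𝒱.Obj) (πW : W ⟶ W) (πZ : Z ⟶ Z),
      IsSituation H E q r s w f πW πZ → Nilpotence H (W.prod Z) → HasBigDivisor C W →
        ChowKunneth C W Z ∧ PairingsReduce C W Z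

end Pool.Agent.T2h14.PW.Stm
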