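import Mathlib
import Pool.Agent.W484.CH.Fin

/-!
# The classes of algebraic cycles, dual systems, and the mixed part
-/

set_option autoImplicit false
set_option linter.unusedSectionVars false

open CategoryTheory AlgebraicGeometry

universe u v w

namespace Pool.Agent.T2h14.PW

open Module Polynomial Pool.Agent.H914 Pool.Agent.H914.VarClass Pool.Agent.H914.VarClass.Obj
  Pool.Agent.W492.BB Pool.Agent.W550.Corr Pool.Agent.W484.CH

variable {k : Type u} [Field k] {𝒱 : VarClass k} {C : TheoryData.{u, v, 0} 𝒱 ℚ} {K : Type w}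
  [Field K] [CharZero K] {H : WeilTheoryData.{u, v, w} C K} [hC : IsChow C] [hH : IsWeil H]
  {A Z X Y : 𝒱.Obj}

variable (H) in
/-- The span of the classes of cycles of codimension `n`. -/
def GK (A : 𝒱.Obj) (n : ℕ) : Submodule K (H.A A) :=
  Submodule.span K {c | ∃ D ∈ C.gr A n, c = H.cl D}

omit [CharZero K] in
theorem one_mem_GK : (1 : H.A A) ∈ GK H A 0 :=
  Submodule.subset_span ⟨1, C.one_mem A, by rw [map_one]⟩

omit [CharZero K] in
theorem mul_mem_GK {m n : ℕ} {a b : H.A A} (ha : a ∈ GK H A m) (hb : b ∈ GK H A n) :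
    a * b ∈ GK H A (m + n) := by
  unfold GK at ha
  induction ha using Submodule.span_induction with
  | mem a ha =>
    obtain ⟨D, hD, rfl⟩ := ha
    unfold GK at hb
    induction hb using Submodule.span_induction with
    | mem b hb =>
      obtain ⟨D', hD', rfl⟩ := hb
      refine Submodule.subset_span ⟨D * D', ?_, by rw [map_mul]⟩
      have h1 := C.mul_mem hD hD'
      push_cast
      exact h1
    | zero => rw [mul_zero]; exact Submodule.zero_mem _
    | add x y _ _ hx hy => rw [mul_add]; exact Submodule.add_mem _ hx hy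
    | smul c x _ hx => rw [mul_smul_comm]; exact Submodule.smul_mem _ _ hx
  | zero => rw [zero_mul]; exact Submodule.zero_mem _
  | add x y _ _ hx hy => rw [add_mul]; exact Submodule.add_mem _ hx hy
  | smul c x _ hx => rw [smul_mul_assoc]; exact Submodule.smul_mem _ _ hx

omit [CharZero K] in
theorem pull_mem_GK {n : ℕ} (f : X ⟶ Y) {a : H.A Y} (ha : a ∈ GK H Y n) :
    H.pull f a ∈ GK H X n := by
  unfold GK at ha
  induction ha using Submodule.span_induction with
  | mem a ha =>
    obtain ⟨D, hD, rfl⟩ := ha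
    exact Submodule.subset_span ⟨C.pull f D, C.pull_mem f hD, (H.cl_pull f D).symm⟩
  | zero => rw [map_zero]; exact Submodule.zero_mem _
  | add x y _ _ hx hy => rw [map_add]; exact Submodule.add_mem _ hx hy
  | smul c x _ hx => rw [map_smul]; exact Submodule.smul_mem _ _ hx

theorem GK_eigen {π : A ⟶ A} {Q : ℕ} (hπ : IsFrobenius C π Q) {n : ℕ} {c : H.A A}
    (hc : c ∈ GK H A n) : H.pull π c = (Q : K) ^ n • c := by
  unfold GK at hc
  induction hc using Submodule.span_induction with
  | mem c hc =>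
    obtain ⟨D, hD, rfl⟩ := hc
    have h1 : C.pull π D = (Q : ℚ) ^ n • D := hπ.chow n D hD
    rw [← H.cl_pull, h1, cl_smul]
    push_cast
    rfl
  | zero => rw [map_zero, smul_zero]
  | add x y _ _ hx hy => rw [map_add, hx, hy, smul_add]
  | smul a x _ hx => rw [map_smul, hx, smul_comm]

section basis

variable {π : A ⟶ A} {Q : ℕ} (hπ : IsFrobenius C π Q) (hQ : 1 < Q) {r : ℕ}
  (b : Basis (Fin r) K (H.A A)) (α : Fin r → K) (hb : ∀ t, H.pull π (b t) = α t • b t)
  (h1 : ∀ t (c : ℤ), α t = (Q : K) ^ c → ∃ k : ℕ, α t = (Q : K) ^ k ∧ b t ∈ GK H A k)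

include hπ hQ hb h1

/-- **The intersection pairing is nondegenerate.** -/
theorem GK_nondeg {n : ℕ} (hn : n ≤ A.dim) {c : H.A A} (hc : c ∈ GK H A n)
    (h : ∀ c' ∈ GK H A (A.dim - n), H.tr A (c * c') = 0) : c = 0 := by
  have hQK : (Q : K) ≠ 0 := by
    have : Q ≠ 0 := by omega
    exact_mod_cast this
  have hbt : ∀ t, H.tr A (c * b t) = 0 := by
    intro t
    by_cases ht : α t = (Q : K) ^ (A.dim - n)
    · obtain ⟨m, hm, hbm⟩ := h1 t ((A.dim - n : ℕ) : ℤ) (by rw [zpow_natCast]; exact ht)
      have h2 : m = A.dim - n := by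
        have h3 : ((Q ^ m : ℕ) : K) = ((Q ^ (A.dim - n) : ℕ) : K) := by
          push_cast
          rw [← hm, ht]
        exact Nat.pow_right_injective hQ (Nat.cast_injective h3)
      rw [h2] at hbm
      exact h _ hbm
    · have h2 := tr_frob hπ (c * b t)
      rw [map_mul, GK_eigen hπ hc, hb, smul_mul_smul_comm, map_smul, smul_eq_mul] at h2
      have h3 : ((Q : K) ^ n * α t - (Q : K) ^ A.dim) * H.tr A (c * b t) = 0 := by
        rw [sub_mul, h2, sub_self]
      rcases mul_eq_zero.1 h3 with h4 | h4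
      · exfalso
        apply ht
        have h5 : (Q : K) ^ n * (Q : K) ^ (A.dim - n) = (Q : K) ^ A.dim := by
          rw [← pow_add]
          congr 1
          omega
        rw [sub_eq_zero, ← h5] at h4
        exact mul_left_cancel₀ (pow_ne_zero _ hQK) h4
      · exact h4
  apply H.nondeg
  intro y
  have h2 : y = ∑ t, b.repr y t • b t := (b.sum_repr y).symm
  rw [h2, Finset.mul_sum, map_sum]
  refine Finset.sum_eq_zero fun t _ => ?_
  rw [mul_smul_comm, map_smul, hbt, smul_zero]

variable (hS : IsStandard H)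

include hS

/-- The dual system in one codimension. -/
theorem exists_dual_one (Z : 𝒱.Obj) {n : ℕ} (hn : n ≤ A.dim) :
    ∃ (m : ℕ) (D E : Fin m → C.A A), (∀ t, D t ∈ C.gr A n) ∧
      (∀ t, E t ∈ C.gr A (A.dim - n : ℕ)) ∧
      (∀ t u, C.push (snd A Z) (C.pull (fst A Z) (D t * E u)) = if t = u then 1 else 0) ∧
      GK H A n ≤ Submodule.span K (Set.range fun t => H.cl (D t)) := by
  classical
  have := hS.finite A
  obtain ⟨deg, hdeg⟩ := exists_deg hS A Z
  -- a basis of classes
  obtain ⟨S, hS1, hS2, hS3⟩ := exists_linearIndependent K {c | ∃ D ∈ C.gr A n, c = H.cl D}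
  have hfin : S.Finite := hS3.setFinite
  have hft := hfin.fintype
  let e := Fintype.equivFin S
  have hD : ∀ t : Fin (Fintype.card S), ∃ D ∈ C.gr A n, (e.symm t : H.A A) = H.cl D :=
    fun t => hS1 (e.symm t).2
  choose D hDg hDcl using hD
  have hli : LinearIndependent K (fun t => H.cl (D t)) := by
    have h2 : (fun t => H.cl (D t)) = (fun x : S => (x : H.A A)) ∘ e.symm := by
      funext t
      exact (hDcl t).symm
    rw [h2]
    exact hS3.comp _ e.symm.injective
  have hspan : GK H A n ≤ Submodule.span K (Set.range fun t => H.cl (D t)) := by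
    unfold GK
    rw [← hS2]
    refine Submodule.span_mono ?_
    intro x hx
    refine ⟨e ⟨x, hx⟩, ?_⟩
    beta_reduce
    rw [← hDcl, Equiv.symm_apply_apply]
  -- the pairing
  let 𝒮 : Submodule ℚ (C.A A) := C.gr A (A.dim - n : ℕ)
  let ψ : 𝒮 →ₗ[ℚ] (Fin (Fintype.card S) → ℚ) :=
    LinearMap.pi fun t => deg ∘ₗ LinearMap.mulLeft ℚ (D t) ∘ₗ 𝒮.subtype
  have hψ : ∀ E t, ψ E t = deg (D t * E) := fun _ _ => rfl
  have hmem : ∀ t (E : 𝒮), D t * E ∈ C.gr A A.dim := by
    intro t E
    have h2 := C.mul_mem (hDg t) E.2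
    rwa [show (n : ℤ) + ((A.dim - n : ℕ) : ℤ) = A.dim by omega] at h2
  have hsurj : LinearMap.range ψ = ⊤ := by
    by_contra hne
    obtain ⟨f, hf0, hf⟩ := Submodule.exists_le_ker_of_lt_top _ (lt_top_iff_ne_top.2 hne)
    apply hf0
    -- the class
    set c : H.A A := ∑ t, ((f (Pi.single t 1) : ℚ) : K) • H.cl (D t) with hc
    set z : C.A A := ∑ t, f (Pi.single t 1) • D t with hz
    have hcz : c = H.cl z := by
      rw [hc, hz, map_sum]
      exact Finset.sum_congr rfl fun t _ => (cl_smul _ _).symm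
    have hcm : c ∈ GK H A n :=
      Submodule.sum_mem _ fun t _ => Submodule.smul_mem _ _ (Submodule.subset_span
        ⟨D t, hDg t, rfl⟩)
    have hc0 : c = 0 := by
      refine GK_nondeg hπ hQ b α hb h1 hn hcm ?_
      intro c' hc'
      unfold GK at hc'
      induction hc' using Submodule.span_induction with
      | mem c' hc' =>
        obtain ⟨E, hE', rfl⟩ := hc'
        apply tr_eq_zero_of_push Z
        rw [hcz, ← map_mul, ← H.cl_pull, ← H.cl_push]
        have h2 : C.push (snd A Z) (C.pull (fst A Z) (z * E)) = 0 := by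
          have h3 : z * E ∈ C.gr A A.dim := by
            rw [hz, Finset.sum_mul]
            refine Submodule.sum_mem _ fun t _ => ?_
            rw [smul_mul_assoc]
            exact Submodule.smul_mem _ _ (hmem t ⟨E, hE'⟩)
          rw [hdeg _ h3]
          have h4 : f (ψ ⟨E, hE'⟩) = 0 := hf ⟨_, rfl⟩
          have h5 : deg (z * E) = f (ψ ⟨E, hE'⟩) := by
            have h6 : ψ ⟨E, hE'⟩ = ∑ t, deg (D t * E) • Pi.single (M := fun _ => ℚ) t 1 := by
              funext t
              rw [hψ, Finset.sum_apply]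
              simp [Pi.single_apply]
            rw [h6, map_sum, hz, Finset.sum_mul, map_sum]
            refine Finset.sum_congr rfl fun t _ => ?_
            rw [smul_mul_assoc, map_smul, map_smul, smul_eq_mul, smul_eq_mul, mul_comm]
          rw [h5, h4, zero_smul]
        rw [h2, map_zero]
      | zero => rw [mul_zero, map_zero]
      | add x y _ _ hx hy => rw [mul_add, map_add, hx, hy, add_zero]
      | smul a x _ hx => rw [mul_smul_comm, map_smul, hx, smul_zero]
    have h2 := Fintype.linearIndependent_iff.1 hli (fun t => ((f (Pi.single t 1) : ℚ) : K))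
      (by rw [← hc, hc0])
    ext t
    have h3 := h2 t
    have h4 : f (Pi.single t 1) = 0 := by exact_mod_cast h3
    simpa using h4
  have hE : ∀ u, ∃ E : 𝒮, ψ E = Pi.single u 1 := by
    intro u
    have h2 : (Pi.single u 1 : Fin (Fintype.card S) → ℚ) ∈ LinearMap.range ψ := by
      rw [hsurj]
      exact Submodule.mem_top
    exact h2
  choose E hE using hE
  refine ⟨Fintype.card S, D, fun u => E u, hDg, fun u => (E u).2, fun t u => ?_, hspan⟩
  rw [hdeg _ (hmem t (E u)), ← hψ, hE, Pi.single_apply]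
  split_ifs
  · rw [one_smul]
  · rw [zero_smul]

/-- **The dual system.** -/
theorem exists_dual (Z : 𝒱.Obj) : ∃ (J : Type) (_ : Fintype J) (deg : J → ℕ) (D E : J → C.A A),
    IsDual A Z deg D E ∧
    ∀ n, GK H A n ≤ Submodule.span K {c | ∃ j, deg j = n ∧ c = H.cl (D j)} := by
  classical
  choose m D E hD hE hDE hspan using fun n : Fin (A.dim + 1) =>
    exists_dual_one hπ hQ b α hb h1 hS Z (n := n) (by omega)
  refine ⟨Σ n : Fin (A.dim + 1), Fin (m n), inferInstance, fun j => j.1, fun j => D j.1 j.2,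
    fun j => E j.1 j.2, ⟨fun j => by omega, fun j => hD j.1 j.2, fun j => ?_,
    fun j => ?_, fun i j hij => ?_⟩, fun n => ?_⟩
  · have h2 := hE j.1 j.2
    have h3 : ((A.dim - (j.1 : ℕ) : ℕ) : ℤ) = (A.dim : ℤ) - (j.1 : ℕ) := by omega
    rw [h3] at h2
    exact h2
  · rw [hDE, if_pos rfl]
  · have hDi := hD i.1 i.2
    by_cases h2 : i.1 = j.1
    · obtain ⟨n, t⟩ := i
      obtain ⟨n', u⟩ := j
      dsimp only at h2
      subst h2
      rw [hDE, if_neg]
      intro h3
      dsimp only at h3
      subst h3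
      exact hij rfl
    · have h3 := C.mul_mem hDi (hE j.1 j.2)
      rcases lt_or_gt_of_ne h2 with h4 | h4
      · have h5 := C.push_mem (snd A Z) (C.pull_mem (fst A Z) h3)
        rw [C.gr_neg _ _ (by
          rw [Obj.dim_prod]
          push_cast
          have : (i.1 : ℕ) < (j.1 : ℕ) := h4
          omega)] at h5
        exact (Submodule.mem_bot _).1 h5
      · rw [hS.chow_top _ _ (by
          have : (j.1 : ℕ) < (i.1 : ℕ) := h4
          omega)] at h3
        rw [(Submodule.mem_bot _).1 h3, map_zero, map_zero]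
  · rcases Nat.lt_or_ge A.dim n with h2 | h2
    · have h3 : GK H A n ≤ ⊥ := by
        refine Submodule.span_le.2 ?_
        rintro _ ⟨D', hD', rfl⟩
        rw [hS.chow_top _ _ (by exact_mod_cast h2)] at hD'
        rw [(Submodule.mem_bot _).1 hD', map_zero]
        exact Submodule.zero_mem _
      exact h3.trans bot_le
    · refine (hspan ⟨n, by omega⟩).trans (Submodule.span_mono ?_)
      rintro _ ⟨t, rfl⟩
      exact ⟨⟨⟨n, by omega⟩, t⟩, rfl, rfl⟩

end basis

variable (H) in
/-- The span of the external products of classes of cycles and arbitrary classes. -/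
noncomputable def mixG (A Z : 𝒱.Obj) : Submodule K (H.A (A.prod Z)) :=
  Submodule.span K {c | ∃ (n : ℕ) (a : H.A A) (h : H.A Z), a ∈ GK H A n ∧ c = H.ext a h}

section basis

variable (hS : IsStandard H) {πA : A ⟶ A} {πZ : Z ⟶ Z} {Q : ℕ} {r : ℕ}
  (b : Basis (Fin r) K (H.A A)) (α : Fin r → K) (hb : ∀ t, H.pull πA (b t) = α t • b t)

include hS hb in
/-- **Generalized eigenvectors lie in the mixed part.** -/
theorem mem_mixG (hQ : Q ≠ 0) (i : ℤ)
    (h2 : ∀ t (ρ : K) (v : H.A Z), v ≠ 0 → H.pull πZ v = ρ • v → α t * ρ = (Q : K) ^ i →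
      ∃ n : ℕ, b t ∈ GK H A n) (m : ℕ) (w : H.A (A.prod Z))
    (hw : op (frob H (prodMap πA πZ)) ((Q : K) ^ i) m w = 0) :
    w ∈ mixG H A Z := by
  obtain ⟨h, rfl⟩ := kunneth_exists b w
  rw [pow_components b α hb] at hw
  have h3 := kunneth_unique hS b _ hw
  refine Submodule.sum_mem _ fun t _ => ?_
  by_cases h0 : h t = 0
  · rw [h0]
    rw [TheoryData.ext, map_zero, mul_zero]
    exact Submodule.zero_mem _
  have hQK : (Q : K) ≠ 0 := by exact_mod_cast hQ
  obtain ⟨hα, v, hv0, hv⟩ := exists_eigen (frob H πZ) (α t) ((Q : K) ^ i) (zpow_ne_zero _ hQK) m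
    (h t) h0 (h3 t)
  obtain ⟨n, hn⟩ := h2 t _ v hv0 hv (mul_div_cancel₀ _ hα)
  exact Submodule.subset_span ⟨n, b t, h t, hn, rfl⟩

end basis

section dual

variable {J : Type} [Fintype J] {deg : J → ℕ} {D E : J → C.A A} (h : IsDual A Z deg D E)
  (hN : ∀ n, GK H A n ≤ Submodule.span K {c | ∃ j, deg j = n ∧ c = H.cl (D j)})

include h hN in
theorem act_proj_mixG {w : H.A (A.prod Z)} (hw : w ∈ mixG H A Z) :
    H.act (H.cl (proj Z D E)) w = w := by
  unfold mixG at hw
  induction hw using Submodule.span_induction with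
  | mem w hw =>
    obtain ⟨n, a, y, ha, rfl⟩ := hw
    have ha' := hN n ha
    clear ha
    induction ha' using Submodule.span_induction with
    | mem a ha =>
      obtain ⟨j, -, rfl⟩ := ha
      exact act_proj_ext h j y
    | zero => rw [TheoryData.ext, map_zero, zero_mul, H.act_map_zero]
    | add a a' _ _ ha ha' => rw [ext_add_left, act_map_add, ha, ha']
    | smul c a _ ha => rw [ext_smul_left, ext_smul_right, act_map_smul, ha]
  | zero => rw [H.act_map_zero]
  | add w w' _ _ hw hw' => rw [act_map_add, hw, hw']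
  | smul c w _ hw => rw [act_map_smul, hw]

end dual

end Pool.Agent.T2h14.PW
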