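import Mathlib
import Pool.Agent.T2h14.PW.GK
import Pool.Agent.T2h14.PW.Stm

/-!
# The graph of Frobenius
-/

set_option autoImplicit false
set_option linter.unusedSectionVars false

open CategoryTheory AlgebraicGeometry

universe u v w

namespace Pool.Agent.T2h14.PW

open Module Polynomial Pool.Agent.H914 Pool.Agent.H914.VarClass Pool.Agent.H914.VarClass.Obj
  Pool.Agent.W492.BB Pool.Agent.W550.Corr Pool.Agent.W484.CH

section linear

variable {K : Type*} [Field K] {V : Type*} [AddCommGroup V] [Module K V] (F : Module.End K V)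

theorem aeval_eigen {v : V} {β : K} (h : F v = β • v) (P : K[X]) :
    aeval F P v = P.eval β • v := by
  by_cases hv : v = 0
  · rw [hv, map_zero, smul_zero]
  · exact Module.End.aeval_apply_of_hasEigenvector
      (Module.End.hasEigenvector_iff.2 ⟨Module.End.mem_eigenspace_iff.2 h, hv⟩)

/-- An eigenvector lies in the span of the spanning eigenvectors with the same eigenvalue. -/
theorem eigen_mem (S : Set V) (hS : Submodule.span K S = ⊤) (W : Submodule K V) (α : K)
    (h1 : ∀ v ∈ S, (v ∈ W ∧ F v = α • v) ∨ ∃ β : K, β ≠ α ∧ F v = β • v) {v : V}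
    (hv : F v = α • v) : v ∈ W := by
  set W' : Submodule K V := ⨆ β : {β : K // β ≠ α}, Module.End.eigenspace F β with hW'
  have htop : (W ⊓ Module.End.eigenspace F α) ⊔ W' = ⊤ := by
    rw [eq_top_iff, ← hS]
    refine Submodule.span_le.2 fun x hx => ?_
    rcases h1 x hx with ⟨h2, h3⟩ | ⟨β, hβ, h3⟩
    · exact Submodule.mem_sup_left ⟨h2, Module.End.mem_eigenspace_iff.2 h3⟩
    · refine Submodule.mem_sup_right ?_
      exact Submodule.mem_iSup_of_mem (⟨β, hβ⟩ : {β : K // β ≠ α})
        (Module.End.mem_eigenspace_iff.2 h3)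
  have hmem : v ∈ (W ⊓ Module.End.eigenspace F α) ⊔ W' := by
    rw [htop]
    exact Submodule.mem_top
  obtain ⟨x, hx, y, hy, hxy⟩ := Submodule.mem_sup.1 hmem
  have hy2 : y ∈ Module.End.eigenspace F α := by
    rw [Module.End.mem_eigenspace_iff]
    have h3 : y = v - x := by rw [← hxy]; abel
    rw [h3, map_sub, hv, Module.End.mem_eigenspace_iff.1 hx.2, smul_sub]
  have hind := Module.End.eigenspaces_iSupIndep F
  have hdis := hind α
  have hW'' : W' ≤ ⨆ j, ⨆ (_ : j ≠ α), Module.End.eigenspace F j := by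
    refine iSup_le fun β => ?_
    exact le_iSup₂_of_le (β : K) β.2 le_rfl
  have hy0 : y = 0 := by
    have h4 := Submodule.disjoint_def.1 hdis y hy2 (hW'' hy)
    exact h4
  rw [hy0, add_zero] at hxy
  rw [← hxy]
  exact hx.1

/-- A polynomial which does not vanish at `α` and vanishes at the other eigenvalues. -/
theorem exists_separating [FiniteDimensional K V] (α : K) :
    ∃ P : K[X], P.eval α ≠ 0 ∧ ∀ (β : K) (v : V), β ≠ α → F v = β • v → aeval F P v = 0 := by
  classical
  refine ⟨∏ β ∈ F.charpoly.roots.toFinset.erase α, (X - Polynomial.C β), ?_, ?_⟩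
  · rw [eval_prod]
    refine Finset.prod_ne_zero_iff.2 fun β hβ => ?_
    rw [eval_sub, eval_X, eval_C, sub_ne_zero]
    exact (Finset.ne_of_mem_erase hβ).symm
  · intro β v hβ hv
    rw [aeval_eigen F hv]
    by_cases hv0 : v = 0
    · rw [hv0, smul_zero]
    have h1 : F.HasEigenvalue β := Module.End.hasEigenvalue_of_hasEigenvector
      (Module.End.hasEigenvector_iff.2 ⟨Module.End.mem_eigenspace_iff.2 hv, hv0⟩)
    have h2 : β ∈ F.charpoly.roots := by
      rw [mem_roots F.charpoly_monic.ne_zero]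
      exact (Module.End.hasEigenvalue_iff_isRoot_charpoly F β).1 h1
    have h3 : (∏ β ∈ F.charpoly.roots.toFinset.erase α, (X - Polynomial.C β)).eval β = 0 := by
      rw [eval_prod]
      refine Finset.prod_eq_zero (Finset.mem_erase.2 ⟨hβ, Multiset.mem_toFinset.2 h2⟩) ?_
      rw [eval_sub, eval_X, eval_C, sub_self]
    rw [h3, zero_smul]

end linear

variable {k : Type u} [Field k] {𝒱 : VarClass k} {C : TheoryData.{u, v, 0} 𝒱 ℚ} {K : Type w}
  [Field K] [CharZero K] {H : WeilTheoryData.{u, v, w} C K} [hC : IsChow C] [hH : IsWeil H]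
  {A Z X Y : 𝒱.Obj}

/-- The class of a polynomial in the graph of Frobenius. -/
noncomputable def graphC (H : WeilTheoryData.{u, v, w} C K) (π : X ⟶ X) (P : K[X]) :
    H.A (X.prod X) :=
  ∑ l ∈ P.support, P.coeff l • H.cl (C.cograph (iter π l))

theorem graphC_mem (π : X ⟶ X) (P : K[X]) : graphC H π P ∈ GK H (X.prod X) X.dim :=
  Submodule.sum_mem _ fun _ _ => Submodule.smul_mem _ _
    (Submodule.subset_span ⟨_, cograph_mem _, rfl⟩)

theorem act_graphC (π : X ⟶ X) (P : K[X]) (x : H.A X) :
    H.act (graphC H π P) x = (aeval (frob H π) P) x := by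
  rw [graphC, act_sum, aeval_eq_sum_range' (n := P.natDegree + 1) (by omega),
    LinearMap.sum_apply]
  have h2 : ∀ l, H.act (P.coeff l • H.cl (C.cograph (iter π l))) x =
      ((P.coeff l • frob H π ^ l) x) := by
    intro l
    rw [LinearMap.smul_apply, ← act_cl_iter, H.act_apply, smul_mul_assoc, map_smul]
    rfl
  rw [Finset.sum_congr rfl fun l _ => h2 l]
  refine Finset.sum_subset ?_ ?_
  · intro l hl
    rw [Finset.mem_range]
    have := le_natDegree_of_mem_supp l hl
    omega
  · intro l _ hl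
    rw [notMem_support_iff.1 hl, zero_smul, LinearMap.zero_apply]

theorem tr_act (Γ : H.A (X.prod Y)) (x : H.A X) (y : H.A Y) :
    H.tr (X.prod Y) (Γ * H.ext x y) = H.tr Y (H.act Γ x * y) := by
  rw [TheoryData.ext, ← mul_assoc, tr_snd, H.act_apply]

/-- Classes on the product which agree against external products agree. -/
theorem eq_of_ext (hS : IsStandard H) {Γ Δ : H.A (X.prod Y)} (S : Set (H.A X))
    (hspan : Submodule.span K S = ⊤)
    (h : ∀ x ∈ S, ∀ y : H.A Y, H.tr (X.prod Y) (Γ * H.ext x y) = H.tr (X.prod Y) (Δ * H.ext x y)) :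
    Γ = Δ := by
  have := hS.finite X
  have h1 : ∀ (x : H.A X) (y : H.A Y),
      H.tr (X.prod Y) (Γ * H.ext x y) = H.tr (X.prod Y) (Δ * H.ext x y) := by
    intro x y
    have hx : x ∈ Submodule.span K S := by rw [hspan]; exact Submodule.mem_top
    induction hx using Submodule.span_induction with
    | mem x hx => exact h x hx y
    | zero => simp [TheoryData.ext]
    | add a b _ _ ha hb => rw [ext_add_left, mul_add, mul_add, map_add, map_add, ha, hb]
    | smul c a _ ha =>
      rw [ext_smul_left, ext_smul_right, mul_smul_comm, mul_smul_comm, map_smul, map_smul, ha]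
  rw [← sub_eq_zero]
  apply H.nondeg
  intro b
  obtain ⟨g, rfl⟩ := kunneth_exists (finBasis K (H.A X)) b
  rw [sub_mul, map_sub, sub_eq_zero, Finset.mul_sum, Finset.mul_sum, map_sum, map_sum]
  exact Finset.sum_congr rfl fun t _ => h1 _ _

/-- Frobenius eigenvectors and the orientation. -/
theorem tr_eigen {π : X ⟶ X} {Q : ℕ} (hπ : IsFrobenius C π Q) {a b : H.A X} {α β : K}
    (ha : H.pull π a = α • a) (hb : H.pull π b = β • b) (h : α * β ≠ (Q : K) ^ X.dim) :
    H.tr X (a * b) = 0 := by
  have h1 := tr_frob hπ (a * b)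
  rw [map_mul, ha, hb, smul_mul_smul_comm, map_smul, smul_eq_mul] at h1
  have h2 : (α * β - (Q : K) ^ X.dim) * H.tr X (a * b) = 0 := by rw [sub_mul, h1, sub_self]
  exact (mul_eq_zero.1 h2).resolve_left (sub_ne_zero.2 h)

theorem graded_comm (hc : Stm.IsGradedCommutative H) {X : 𝒱.Obj} {i j : ℕ} {a b : H.A X}
    (ha : a ∈ H.gr X i) (hb : b ∈ H.gr X j) : a * b = (-1 : K) ^ (i * j) • (b * a) :=
  hc X i j a b ha hb

theorem ext_mul_ext_of_comm {a a' : H.A X} {b b' : H.A Y} {ε : K}
    (h : H.pull (snd X Y) b * H.pull (fst X Y) a' = ε • (H.pull (fst X Y) a' * H.pull (snd X Y) b)) :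
    H.ext a b * H.ext a' b' = ε • H.ext (a * a') (b * b') := by
  have h1 : H.ext a b * H.ext a' b' = H.pull (fst X Y) a *
      (H.pull (snd X Y) b * H.pull (fst X Y) a') * H.pull (snd X Y) b' := by
    simp only [TheoryData.ext, mul_assoc]
  rw [h1, h, mul_smul_comm, smul_mul_assoc, TheoryData.ext, map_mul, map_mul]
  simp only [mul_assoc]

/-- **The graph of Frobenius**: the external product of two eigenvectors in the middle degree with
simple eigenvalues `α'`, `α`, `α α' = Q ^ dim X`, is a combination of classes of cycles. -/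
theorem ext_mem_GK (hS : IsStandard H) (hc : Stm.IsGradedCommutative H) {π : X ⟶ X} {Q : ℕ}
    (hπ : IsFrobenius C π Q) (hQ : Q ≠ 0) (R : Set K) (hR : ∀ β ∈ R, ∀ n : ℕ, β ≠ (Q : K) ^ n)
    (hspan : Submodule.span K ({v | ∃ n, v ∈ GK H X n} ∪
      {v | v ∈ H.gr X X.dim ∧ ∃ β ∈ R, H.pull π v = β • v}) = ⊤)
    (hsimple : ∀ β ∈ R, ∀ a ∈ H.gr X X.dim, ∀ b ∈ H.gr X X.dim, H.pull π a = β • a →
      H.pull π b = β • b → a ≠ 0 → ∃ c : K, b = c • a)
    {c c' : H.A X} {α α' : K} (hα : α ∈ R) (hαα : α * α' = (Q : K) ^ X.dim)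
    (hcd : c ∈ H.gr X X.dim) (hcd' : c' ∈ H.gr X X.dim) (hcα : H.pull π c = α • c)
    (hcα' : H.pull π c' = α' • c') : H.ext c' c ∈ GK H (X.prod X) X.dim := by
  by_cases hc0 : c = 0
  · rw [hc0, TheoryData.ext, map_zero, mul_zero]
    exact Submodule.zero_mem _
  have := hS.finite X
  have hQK : (Q : K) ≠ 0 := by exact_mod_cast hQ
  have hα'0 : α' ≠ 0 := by
    rintro rfl
    rw [mul_zero] at hαα
    exact pow_ne_zero _ hQK hαα.symm
  obtain ⟨P, hP1, hP2⟩ := exists_separating (frob H π) α
  obtain ⟨τ, hτ, htr⟩ := exists_tau hS X X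
  set ε : K := (-1 : K) ^ (X.dim * X.dim) with hε
  set κ : K := ε * H.tr X (c' * c) with hκ
  have key : κ • graphC H π P = (τ * P.eval α) • H.ext c' c := by
    refine eq_of_ext hS _ hspan ?_
    intro x hx y
    rw [smul_mul_assoc, map_smul, smul_mul_assoc, map_smul, tr_act, act_graphC, smul_eq_mul,
      smul_eq_mul]
    -- the product of the two external products
    have hsnd : H.pull (snd X X) c ∈ H.gr (X.prod X) X.dim := H.pull_mem (snd X X) hcd
    rcases hx with ⟨n, hx⟩ | ⟨hxd, β, hβ, hx⟩
    · have hx1 := GK_eigen hπ hx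
      have hne : (Q : K) ^ n ≠ α := (hR α hα n).symm
      rw [hP2 _ x hne hx1, zero_mul, map_zero, mul_zero]
      have hcen : H.pull (snd X X) c * H.pull (fst X X) x =
          (1 : K) • (H.pull (fst X X) x * H.pull (snd X X) c) := by
        rw [one_smul]
        clear hx1
        unfold GK at hx
        induction hx using Submodule.span_induction with
        | mem x hx =>
          obtain ⟨D, -, rfl⟩ := hx
          rw [← H.cl_pull]
          exact (H.cl_central _ _).symm
        | zero => rw [map_zero, mul_zero, zero_mul]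
        | add a b _ _ ha hb => rw [map_add, mul_add, add_mul, ha, hb]
        | smul r a _ ha => rw [map_smul, mul_smul_comm, smul_mul_assoc, ha]
      rw [ext_mul_ext_of_comm hcen, one_smul]
      have h5 : H.tr X (c' * x) = 0 := by
        refine tr_eigen hπ hcα' hx1 ?_
        intro h6
        rw [← hαα, mul_comm α α'] at h6
        exact hne (mul_left_cancel₀ hα'0 h6)
      have h6 := htr (c' * x) (c * y)
      rw [h5, zero_mul] at h6
      rw [mul_assoc, mul_comm (P.eval α), ← mul_assoc, h6, zero_mul]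
    · have hcom : H.pull (snd X X) c * H.pull (fst X X) x =
          ε • (H.pull (fst X X) x * H.pull (snd X X) c) :=
        graded_comm hc hsnd (H.pull_mem (fst X X) hxd)
      rw [ext_mul_ext_of_comm hcom, map_smul, smul_eq_mul]
      by_cases hβα : β = α
      · subst hβα
        obtain ⟨r, rfl⟩ := hsimple β hβ c hcd x hxd hcα hx hc0
        rw [aeval_eigen (frob H π) (β := β) hx]
        have h6 := htr (c' * (r • c)) (c * y)
        have h7 : τ * P.eval β * (ε * H.tr (X.prod X) (H.ext (c' * (r • c)) (c * y))) =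
            P.eval β * ε * (τ * H.tr (X.prod X) (H.ext (c' * (r • c)) (c * y))) := by ring
        rw [h7, h6, mul_smul_comm, map_smul, smul_eq_mul, smul_smul, smul_mul_assoc, map_smul,
          smul_eq_mul, hκ]
        ring
      · rw [hP2 β x hβα hx, zero_mul, map_zero, mul_zero]
        have h5 : H.tr X (c' * x) = 0 := by
          refine tr_eigen hπ hcα' hx ?_
          intro h6
          rw [← hαα, mul_comm α α'] at h6
          exact hβα (mul_left_cancel₀ hα'0 h6)
        have h6 := htr (c' * x) (c * y)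
        rw [h5, zero_mul] at h6
        have h7 : τ * P.eval α * (ε * H.tr (X.prod X) (H.ext (c' * x) (c * y))) =
            P.eval α * ε * (τ * H.tr (X.prod X) (H.ext (c' * x) (c * y))) := by ring
        rw [h7, h6, mul_zero]
  have h1 : H.ext c' c = ((τ * P.eval α)⁻¹ * κ) • graphC H π P := by
    rw [mul_smul, key, smul_smul, inv_mul_cancel₀ (mul_ne_zero hτ hP1), one_smul]
  rw [h1]
  exact Submodule.smul_mem _ _ (graphC_mem π P)

end Pool.Agent.T2h14.PW
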