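import Mathlib
import Pool.Agent.T2h14.NR.Over
import Pool.Agent.T2h14.PW.Stm
import Pool.Agent.W484.CH.Fin

/-!
# The relations between the roots, in a field of characteristic zero
-/

set_option autoImplicit false
set_option linter.unusedSectionVars false

namespace Pool.Agent.T2h14.PW

open Polynomial Module Pool.Agent.W484.AA Pool.Agent.W484.HS Pool.Agent.W484.TB

variable {I : Type} {w : I → ℕ} {f : I → ℤ[X]} {q r : ℕ} (E : IntermediateField ℚ ℂ)

/-- The labels of the root vectors. -/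
abbrev Lb (K : Type*) [Field K] (f : I → ℤ[X]) := Σ i, {z : K // aeval z (f i) = 0}

theorem rankLE_iff {S : Set ℂ} : Pool.Agent.T2h14.NR.Stm.RankLE E r S ↔ RankLEOver E r S := Iff.rfl

theorem not_pairwise_complex (h : Stm.NoRelations E q r w f) {s : ℕ} (hs : 0 < s) {χ : ℚ[X]}
    (hχ : χ ≠ 0) (hrank : RankLEOver E r {ρ : ℂ | aeval ρ χ = 0}) {ρ : ℂ} (hρ : aeval ρ χ = 0)
    (c : ℤ) (N : ℕ) (hN : 0 < N) (ys : List (Lb ℂ f)) (hys : ys ≠ [])
    (hrel : ((ys.map (fun y => (y.2 : ℂ) ^ s)).prod * ρ) ^ N = (((q : ℂ) ^ s) ^ c) ^ N) :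
    ¬ ys.Pairwise fun y y' => ¬ (y.1 = y'.1 ∧ (y.2 : ℂ) * y'.2 = (q : ℂ) ^ w y.1) := by
  intro hpw
  have hn : 0 < ys.length := List.length_pos_iff.2 hys
  obtain ⟨k, l, hkl, hkl1, hkl2⟩ := h χ hχ hrank ρ hρ s hs ys.length hn c N hN
    (fun l => (ys.get l).1) (fun l => ((ys.get l).2 : ℂ)) (fun l => (ys.get l).2.2) (by
    rw [← hrel]
    congr 2
    have h6 : ∏ l : Fin ys.length, ((ys.get l).2 : ℂ) =
        (ys.map (fun y : Lb ℂ f => (y.2 : ℂ))).prod := by
      rw [← List.prod_ofFn]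
      congr 1
      apply List.ext_getElem
      · simp
      · intro i h1 h2
        simp
    rw [h6]
    have h7 : ∀ ys : List (Lb ℂ f), (ys.map (fun y => (y.2 : ℂ))).prod ^ s =
        (ys.map (fun y => (y.2 : ℂ) ^ s)).prod := by
      intro ys
      induction ys with
      | nil => simp
      | cons y ys ih =>
        rw [List.map_cons, List.prod_cons, mul_pow, ih, List.map_cons, List.prod_cons]
    exact h7 ys)
  rcases lt_or_gt_of_ne hkl with h1 | h1
  · exact (List.pairwise_iff_get.1 hpw) k l h1 ⟨hkl1, hkl2⟩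
  · refine (List.pairwise_iff_get.1 hpw) l k h1 ⟨hkl1.symm, ?_⟩
    exact (mul_comm _ _).trans (hkl2.trans (congrArg (fun i => (q : ℂ) ^ w i) hkl1))

/-- The relations for a field of characteristic zero. -/
theorem not_pairwise (hf : ∀ i, f i ≠ 0) (h : Stm.NoRelations E q r w f) {s : ℕ} (hs : 0 < s)
    {χ : ℚ[X]} (hχ : χ ≠ 0) (hrank : RankLEOver E r {ρ : ℂ | aeval ρ χ = 0})
    {K : Type*} [Field K] [CharZero K] {ρ : K} (hρ : aeval ρ χ = 0)
    (c : ℤ) (N : ℕ) (hN : 0 < N) (ys : List (Lb K f)) (hys : ys ≠ [])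
    (hrel : ((ys.map (fun y => (y.2 : K) ^ s)).prod * ρ) ^ N = (((q : K) ^ s) ^ c) ^ N) :
    ¬ ys.Pairwise fun y y' => ¬ (y.1 = y'.1 ∧ (y.2 : K) * y'.2 = (q : K) ^ w y.1) := by
  classical
  have hmem : ∀ z : K, (∃ p : ℚ[X], p ≠ 0 ∧ aeval z p = 0) → z ∈ algebraicClosure ℚ K := by
    rintro z ⟨p, hp, hz⟩
    rw [mem_algebraicClosure_iff]
    exact ⟨p, hp, hz⟩
  have halg : Algebra.IsAlgebraic ℚ (algebraicClosure ℚ K) := algebraicClosure.isAlgebraic ℚ K
  let j : algebraicClosure ℚ K →ₐ[ℚ] ℂ := IsAlgClosed.lift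
  have hρm := hmem ρ ⟨χ, hχ, hρ⟩
  have hρj : aeval (j ⟨ρ, hρm⟩) χ = 0 := by
    rw [Polynomial.aeval_algHom_apply]
    have h1 : aeval (⟨ρ, hρm⟩ : algebraicClosure ℚ K) χ = 0 := by
      apply (algebraMap (algebraicClosure ℚ K) K).injective
      rw [← Polynomial.aeval_algebraMap_apply, map_zero]
      exact hρ
    rw [h1, map_zero]
  have hzm : ∀ z : Lb K f, (z.2 : K) ∈ algebraicClosure ℚ K := by
    rintro ⟨i, z, hi⟩
    refine hmem z ⟨(f i).map (algebraMap ℤ ℚ), ?_, ?_⟩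
    · exact (Polynomial.map_ne_zero_iff (algebraMap ℤ ℚ).injective_int).2 (hf i)
    · rw [aeval_map_algebraMap]
      exact hi
  have hz : ∀ z : Lb K f, aeval (j ⟨z.2, hzm z⟩) (f z.1) = 0 := by
    rintro ⟨i, z, hi⟩
    have h2 := Polynomial.hom_eval₂ (f i) (algebraMap ℤ _)
      (j : algebraicClosure ℚ K →+* ℂ) ⟨z, hzm ⟨i, z, hi⟩⟩
    rw [RingHom.ext_int ((j : algebraicClosure ℚ K →+* ℂ).comp (algebraMap ℤ _))
      (algebraMap ℤ ℂ)] at h2
    have h3 : eval₂ (algebraMap ℤ (algebraicClosure ℚ K)) (⟨z, hzm ⟨i, z, hi⟩⟩ :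
        algebraicClosure ℚ K) (f i) = 0 := by
      apply (algebraMap (algebraicClosure ℚ K) K).injective
      rw [map_zero, Polynomial.hom_eval₂, RingHom.ext_int ((algebraMap (algebraicClosure ℚ K)
        K).comp (algebraMap ℤ _)) (algebraMap ℤ K)]
      exact hi
    rw [h3, map_zero] at h2
    exact h2.symm
  intro hpw
  let φ : Lb K f → Lb ℂ f := fun z => ⟨z.1, j ⟨z.2, hzm z⟩, hz z⟩
  have hrel0 : ((ys.map (fun z : Lb K f =>
      (⟨z.2, hzm z⟩ : algebraicClosure ℚ K) ^ s)).prod * ⟨ρ, hρm⟩) ^ N =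
      (((q : algebraicClosure ℚ K) ^ s) ^ c) ^ N := by
    apply (algebraMap (algebraicClosure ℚ K) K).injective
    rw [map_pow, map_mul, _root_.map_list_prod, List.map_map, map_pow, map_zpow₀, map_pow,
      map_natCast]
    exact hrel
  refine not_pairwise_complex E h hs hχ hrank hρj c N hN (ys.map φ) (by
    rw [Ne, List.map_eq_nil_iff]
    exact hys) ?_ ?_
  · have h4 := congrArg j hrel0
    rw [map_pow, map_mul, _root_.map_list_prod j, List.map_map, map_pow, map_zpow₀, map_pow,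
      map_natCast] at h4
    rw [List.map_map, ← h4]
    congr 4
    funext z
    change (j ⟨z.2, hzm z⟩) ^ s = j (⟨z.2, hzm z⟩ ^ s)
    rw [map_pow]
  · rw [List.pairwise_map]
    refine hpw.imp ?_
    rintro a b hab ⟨h1, h2⟩
    refine hab ⟨h1, ?_⟩
    have h3 : j (⟨a.2, hzm a⟩ * ⟨b.2, hzm b⟩) = j ((q : algebraicClosure ℚ K) ^ w a.1) := by
      rw [map_mul, map_pow, map_natCast]
      exact h2
    have h4 := j.toRingHom.injective h3
    have h5 := congrArg (algebraMap (algebraicClosure ℚ K) K) h4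
    rw [map_pow, map_natCast] at h5
    exact h5

end Pool.Agent.T2h14.PW
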