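import Mathlib
import Pool.Agent.T2h14.PW.Graph
import Pool.Agent.T2h14.PW.Rel

/-!
# Products of varieties with simple Frobenius
-/

set_option autoImplicit false
set_option linter.unusedSectionVars false

open CategoryTheory AlgebraicGeometry

universe u v w

namespace Pool.Agent.T2h14.PW

open Module Polynomial Pool.Agent.H914 Pool.Agent.H914.VarClass Pool.Agent.H914.VarClass.Obj
  Pool.Agent.W492.BB Pool.Agent.W550.Corr Pool.Agent.W484.CH Pool.Agent.W484.TB
  Pool.Agent.W484.AA Pool.Agent.W484.BB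

theorem prod_perm_scalar {K R : Type*} [Field K] [Ring R] [Algebra K R] {L L' : List R}
    (h : L.Perm L') : (∀ a ∈ L, ∀ b ∈ L, ∃ ε : K, a * b = ε • (b * a)) →
      ∃ c : K, L.prod = c • L'.prod := by
  induction h with
  | nil => intro _; exact ⟨1, by simp⟩
  | cons a _ ih =>
    intro h
    obtain ⟨c, hc⟩ := ih fun x hx y hy => h x (List.mem_cons_of_mem _ hx) y
      (List.mem_cons_of_mem _ hy)
    exact ⟨c, by rw [List.prod_cons, List.prod_cons, hc, mul_smul_comm]⟩
  | swap a b l =>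
    intro h
    obtain ⟨ε, hε⟩ := h b (by simp) a (by simp)
    refine ⟨ε, ?_⟩
    rw [List.prod_cons, List.prod_cons, List.prod_cons, List.prod_cons, ← mul_assoc, ← mul_assoc,
      hε, smul_mul_assoc]
  | trans h1 _ ih1 ih2 =>
    intro h
    obtain ⟨c, hc⟩ := ih1 h
    obtain ⟨d, hd⟩ := ih2 fun x hx y hy => h x (h1.mem_iff.2 hx) y (h1.mem_iff.2 hy)
    exact ⟨c * d, by rw [hc, hd, smul_smul]⟩

variable {k : Type u} [Field k] {𝒱 : VarClass k} {C : TheoryData.{u, v, 0} 𝒱 ℚ} {K : Type w}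
  [Field K] [CharZero K] {H : WeilTheoryData.{u, v, w} C K} [hC : IsChow C] [hH : IsWeil H]
  {A Z : 𝒱.Obj}

theorem zpow_split {Q : K} (hQ : Q ≠ 0) (c : ℤ) (m : ℕ) : Q ^ c = Q ^ m * Q ^ (c - m) := by
  rw [← zpow_natCast Q m, ← zpow_add₀ hQ]
  congr 1
  ring

theorem GK_central {Y : 𝒱.Obj} {n : ℕ} {x : H.A Y} (hx : x ∈ GK H Y n) (y : H.A Y) :
    x * y = y * x := by
  unfold GK at hx
  induction hx using Submodule.span_induction with
  | mem x hx =>
    obtain ⟨D, -, rfl⟩ := hx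
    exact H.cl_central _ _
  | zero => rw [mul_zero, zero_mul]
  | add a b _ _ ha hb => rw [mul_add, add_mul, ha, hb]
  | smul r a _ ha => rw [mul_smul_comm, smul_mul_assoc, ha]

variable {I : Type} (X : I → 𝒱.Obj) (π : ∀ i, X i ⟶ X i) (q s : ℕ) (w : I → ℕ) (f : I → ℤ[X])

/-- `v` is the pull-back, under an equivariant morphism to `X i`, of a root vector. -/
def IsRG {W : 𝒱.Obj} (πW : W ⟶ W) (v : H.A W) (y : Lb K f) : Prop :=
  ∃ p : W ⟶ X y.1, πW ≫ p = p ≫ π y.1 ∧ ∃ c ∈ H.gr (X y.1) (w y.1),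
    H.pull (π y.1) c = (y.2 : K) ^ s • c ∧ v = H.pull p c

/-- The products of classes of cycles and of pull-backs of root vectors. -/
def Mono (H : WeilTheoryData.{u, v, w} C K) {W : 𝒱.Obj} (πW : W ⟶ W) : Set (H.A W) :=
  {v | ∃ (n : ℕ) (a : H.A W) (L : List (H.A W × Lb K f)), a ∈ GK H W n ∧
    (∀ e ∈ L, IsRG X π s w f πW e.1 e.2) ∧ v = a * (L.map Prod.fst).prod}

variable {X π s w f}

theorem mono_mul {W : 𝒱.Obj} {πW : W ⟶ W} {a b : H.A W} (ha : a ∈ Mono X π s w f H πW)
    (hb : b ∈ Mono X π s w f H πW) : a * b ∈ Mono X π s w f H πW := by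
  obtain ⟨n, a, L, ha, hL, rfl⟩ := ha
  obtain ⟨n', a', L', ha', hL', rfl⟩ := hb
  refine ⟨n + n', a * a', L ++ L', mul_mem_GK ha ha', ?_, ?_⟩
  · intro e he
    rcases List.mem_append.1 he with h | h
    · exact hL e h
    · exact hL' e h
  · rw [List.map_append, List.prod_append, mul_assoc, ← mul_assoc _ a', ← GK_central ha' _]
    simp only [mul_assoc]

theorem span_mono_mul {W : 𝒱.Obj} {πW : W ⟶ W} {a b : H.A W}
    (ha : a ∈ Submodule.span K (Mono X π s w f H πW))
    (hb : b ∈ Submodule.span K (Mono X π s w f H πW)) :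
    a * b ∈ Submodule.span K (Mono X π s w f H πW) := by
  induction ha using Submodule.span_induction with
  | mem a ha =>
    induction hb using Submodule.span_induction with
    | mem b hb => exact Submodule.subset_span (mono_mul ha hb)
    | zero => rw [mul_zero]; exact Submodule.zero_mem _
    | add x y _ _ hx hy => rw [mul_add]; exact Submodule.add_mem _ hx hy
    | smul c x _ hx => rw [mul_smul_comm]; exact Submodule.smul_mem _ _ hx
  | zero => rw [zero_mul]; exact Submodule.zero_mem _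
  | add x y _ _ hx hy => rw [add_mul]; exact Submodule.add_mem _ hx hy
  | smul c x _ hx => rw [smul_mul_assoc]; exact Submodule.smul_mem _ _ hx

theorem span_mono_pull {W W' : 𝒱.Obj} {πW : W ⟶ W} {πW' : W' ⟶ W'} (g : W' ⟶ W)
    (hg : πW' ≫ g = g ≫ πW) {a : H.A W} (ha : a ∈ Submodule.span K (Mono X π s w f H πW)) :
    H.pull g a ∈ Submodule.span K (Mono X π s w f H πW') := by
  induction ha using Submodule.span_induction with
  | mem a ha =>
    obtain ⟨n, a, L, ha, hL, rfl⟩ := ha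
    refine Submodule.subset_span ⟨n, H.pull g a, L.map (fun e => (H.pull g e.1, e.2)),
      pull_mem_GK g ha, ?_, ?_⟩
    · intro e he
      obtain ⟨e', he', rfl⟩ := List.mem_map.1 he
      obtain ⟨p, hp, c, hc, hcs, hv⟩ := hL e' he'
      refine ⟨g ≫ p, ?_, c, hc, hcs, ?_⟩
      · rw [← Category.assoc, hg, Category.assoc, hp, Category.assoc]
      · dsimp only
        rw [hv, H.pull_comp]
    · rw [map_mul, _root_.map_list_prod, List.map_map, List.map_map]
      rfl
  | zero => rw [map_zero]; exact Submodule.zero_mem _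
  | add x y _ _ hx hy => rw [map_add]; exact Submodule.add_mem _ hx hy
  | smul c x _ hx => rw [map_smul]; exact Submodule.smul_mem _ _ hx

variable (hX : ∀ i, Stm.HasSimpleFrobenius H (π i) q s (w i) (f i)) (hS : IsStandard H)

include hX hS in
/-- **The products span.** -/
theorem span_mono {W : 𝒱.Obj} {πW : W ⟶ W} (hW : Stm.IsProductOf X π W πW) :
    Submodule.span K (Mono X π s w f H πW) = ⊤ := by
  induction hW with
  | base i =>
    rw [eq_top_iff]
    intro c _
    have h1 := (hX i).spanned c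
    refine Submodule.span_le.2 ?_ h1
    rintro a (⟨n, z, hz, rfl⟩ | ⟨ha, z, hz, hza⟩)
    · exact Submodule.subset_span ⟨n, H.cl z, [], Submodule.subset_span ⟨z, hz, rfl⟩, by simp,
        by simp⟩
    · refine Submodule.subset_span ⟨0, 1, [(a, ⟨i, z, hz⟩)], one_mem_GK, ?_, by simp⟩
      intro e he
      rw [List.mem_singleton] at he
      subst he
      exact ⟨𝟙 _, by simp, a, ha, hza, (H.pull_id a).symm⟩
  | prod W W' πW πW' _ _ ih ih' =>
    have := hS.finite W
    rw [eq_top_iff]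
    intro c _
    obtain ⟨g, rfl⟩ := kunneth_exists (finBasis K (H.A W)) c
    refine Submodule.sum_mem _ fun t _ => ?_
    refine span_mono_mul (span_mono_pull (πW := πW) (fst W W') (prodMap_fst _ _)
      (by rw [ih]; exact Submodule.mem_top))
      (span_mono_pull (πW := πW') (snd W W') (prodMap_snd _ _) (by rw [ih']; exact Submodule.mem_top))

theorem isRG_eigen {W : 𝒱.Obj} {πW : W ⟶ W} {v : H.A W} {y : Lb K f}
    (h : IsRG X π s w f πW v y) : H.pull πW v = (y.2 : K) ^ s • v := by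
  obtain ⟨p, hp, c, hc, hcs, rfl⟩ := h
  rw [← H.pull_comp, hp, H.pull_comp, hcs, map_smul]

theorem isRG_mem {W : 𝒱.Obj} {πW : W ⟶ W} {v : H.A W} {y : Lb K f}
    (h : IsRG X π s w f πW v y) : v ∈ H.gr W (w y.1) := by
  obtain ⟨p, hp, c, hc, hcs, rfl⟩ := h
  exact H.pull_mem p hc

theorem list_eigen {W : 𝒱.Obj} {πW : W ⟶ W} (L : List (H.A W × Lb K f))
    (hL : ∀ e ∈ L, IsRG X π s w f πW e.1 e.2) : H.pull πW (L.map Prod.fst).prod =
      (L.map (fun e => (e.2.2 : K) ^ s)).prod • (L.map Prod.fst).prod := by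
  induction L with
  | nil => simp
  | cons e L ih =>
    rw [List.map_cons, List.prod_cons, map_mul, isRG_eigen (hL e (by simp)),
      ih (fun e' he' => hL e' (List.mem_cons_of_mem _ he')), List.map_cons, List.prod_cons,
      smul_mul_smul_comm]

variable (hcm : Stm.IsGradedCommutative H) {E : IntermediateField ℚ ℂ} {r : ℕ} (hq : q ≠ 0)
  (hf : ∀ i, f i ≠ 0) (hno : Stm.NoRelations E q r w f) (hs : 0 < s)

theorem rank_one' : RankLEOver E r {ρ : ℂ | aeval ρ (Polynomial.X - 1 : ℚ[X]) = 0} := by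
  refine ⟨fun _ => 1, fun _ => one_ne_zero, fun ρ hρ => ⟨1, 1, fun _ => 0, one_pos,
    one_mem E, one_ne_zero, ?_⟩⟩
  change aeval ρ (Polynomial.X - 1 : ℚ[X]) = 0 at hρ
  rw [map_sub, aeval_X, map_one, sub_eq_zero] at hρ
  rw [hρ]
  simp

include hf hno hs in
/-- The eigenvalues on the root vectors are not powers of `Q`. -/
theorem root_ne (y : Lb K f) (n : ℤ) : (y.2 : K) ^ s ≠ ((q : K) ^ s) ^ n := by
  intro h
  have hX1 : (Polynomial.X - 1 : ℚ[X]) ≠ 0 := by
    have := Polynomial.X_sub_C_ne_zero (1 : ℚ)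
    rwa [map_one] at this
  refine not_pairwise E hf hno hs hX1 rank_one' (ρ := (1 : K))
    (by rw [map_sub, aeval_X, map_one, sub_self]) n 1 one_pos [y] (by simp) ?_ (by simp)
  simpa using h

include hX hS hcm hq hf hno hs in
/-- **The pairs**: the product of two root vectors with `z z' = q ^ w` is a combination of classes of
cycles. -/
theorem pair_mem {W : 𝒱.Obj} {πW : W ⟶ W} {v v' : H.A W} {y y' : Lb K f}
    (h : IsRG X π s w f πW v y) (h' : IsRG X π s w f πW v' y') (hi : y.1 = y'.1)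
    (hyy : (y.2 : K) * y'.2 = (q : K) ^ w y.1) : v * v' ∈ GK H W (w y.1) := by
  obtain ⟨i, z, hz⟩ := y
  obtain ⟨i', z', hz'⟩ := y'
  dsimp only at hi
  subst hi
  obtain ⟨p, hp, c, hc, hcs, rfl⟩ := h
  obtain ⟨p', hp', c', hc', hcs', rfl⟩ := h'
  dsimp only at p hp c hc hcs p' hp' c' hc' hcs' hyy ⊢
  have hm : w i = (X i).dim := (hX i).middle
  have h1 : H.ext c c' ∈ GK H ((X i).prod (X i)) (X i).dim := by
    refine ext_mem_GK hS hcm (Q := q ^ s) ⟨(hX i).frobenius.chow, (hX i).frobenius.degree⟩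
      (pow_ne_zero _ hq) {β | ∃ z : K, aeval z (f i) = 0 ∧ β = z ^ s} ?_ ?_ ?_ (c := c') (c' := c)
      (α := z' ^ s) (α' := z ^ s) ⟨z', hz', rfl⟩ ?_ (by rw [← hm]; exact hc')
      (by rw [← hm]; exact hc) hcs' hcs
    · rintro β ⟨z, hz, rfl⟩ n hn
      refine root_ne q hf hno hs ⟨i, z, hz⟩ (n : ℤ) ?_
      rw [zpow_natCast]
      push_cast at hn
      exact hn
    · rw [eq_top_iff]
      intro c _
      refine Submodule.span_le.2 ?_ ((hX i).spanned c)
      rintro a (⟨n, z, hz, rfl⟩ | ⟨ha, z, hz, hza⟩)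
      · exact Submodule.subset_span (Or.inl ⟨n, Submodule.subset_span ⟨z, hz, rfl⟩⟩)
      · exact Submodule.subset_span (Or.inr ⟨by rw [← hm]; exact ha, _, ⟨z, hz, rfl⟩, hza⟩)
    · rintro β ⟨z, hz, rfl⟩ a ha b hb hae hbe ha0
      rw [← hm] at ha hb
      exact (hX i).simple z a b hz ha hb hae hbe ha0
    · rw [← mul_pow, mul_comm z', hyy, hm]
      push_cast
      rw [← pow_mul, ← pow_mul, mul_comm]
  have h2 : H.pull p c * H.pull p' c' = H.pull (Obj.lift p p') (H.ext c c') := by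
    rw [TheoryData.ext, map_mul, ← H.pull_comp, ← H.pull_comp, lift_fst, lift_snd]
  rw [h2, hm]
  exact pull_mem_GK _ h1

include hX hS hcm hq hf hno hs in
/-- **The induction.** -/
theorem list_mem {W : 𝒱.Obj} {πW : W ⟶ W} {χ : ℚ[X]} (hχ : χ ≠ 0)
    (hrank : RankLEOver E r {ρ : ℂ | aeval ρ χ = 0}) {ρ : K} (hρ : aeval ρ χ = 0) :
    ∀ (n : ℕ) (c : ℤ) (L : List (H.A W × Lb K f)), L.length = n →
      (∀ e ∈ L, IsRG X π s w f πW e.1 e.2) →
      (L.map (fun e => (e.2.2 : K) ^ s)).prod * ρ = ((q : K) ^ s) ^ c →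
      ∃ l : ℕ, (L.map (fun e => (e.2.2 : K) ^ s)).prod = ((q : K) ^ s) ^ l ∧
        (L.map Prod.fst).prod ∈ GK H W l := by
  intro n
  induction n using Nat.strong_induction_on with
  | _ n ih =>
    intro c L hlen hL hrel
    have hQ0 : (q : K) ^ s ≠ 0 := pow_ne_zero _ (by exact_mod_cast hq)
    rcases Nat.eq_zero_or_pos n with hn | hn
    · subst hn
      have hL0 : L = [] := List.length_eq_zero_iff.1 hlen
      subst hL0
      exact ⟨0, by simp, by simpa using one_mem_GK⟩
    · have h3 := not_pairwise E hf hno hs hχ hrank hρ c 1 one_pos (L.map Prod.snd) (by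
        rw [Ne, List.map_eq_nil_iff]
        rintro rfl
        rw [List.length_nil] at hlen
        omega) (by
        rw [List.map_map, pow_one, pow_one]
        exact hrel)
      rw [List.pairwise_map] at h3
      obtain ⟨e, e', L', hperm, hgood⟩ := exists_of_not_pairwise _ L h3
      rw [not_not] at hgood
      have heL : e ∈ L := hperm.mem_iff.2 (by simp)
      have heL' : e' ∈ L := hperm.mem_iff.2 (by simp)
      have hlen' : n = L'.length + 2 := by
        have h2 := hperm.length_eq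
        rw [List.length_cons, List.length_cons, hlen] at h2
        omega
      obtain ⟨b', hb'⟩ := prod_perm_scalar (K := K) (hperm.map Prod.fst) (by
        intro a ha b hb
        rw [List.mem_map] at ha hb
        obtain ⟨e₁, he₁, rfl⟩ := ha
        obtain ⟨e₂, he₂, rfl⟩ := hb
        exact ⟨_, graded_comm hcm (isRG_mem (hL e₁ he₁)) (isRG_mem (hL e₂ he₂))⟩)
      have hee : (e.2.2 : K) ^ s * (e'.2.2 : K) ^ s = ((q : K) ^ s) ^ (w e.2.1) := by
        rw [← mul_pow, hgood.2, ← pow_mul, ← pow_mul, mul_comm]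
      have h3 : (L.map (fun e => (e.2.2 : K) ^ s)).prod = ((q : K) ^ s) ^ (w e.2.1) *
          (L'.map (fun e => (e.2.2 : K) ^ s)).prod := by
        rw [(hperm.map (fun e => (e.2.2 : K) ^ s)).prod_eq, List.map_cons, List.prod_cons,
          List.map_cons, List.prod_cons, ← mul_assoc, hee]
      obtain ⟨l, hkv, h5⟩ := ih L'.length (by omega) (c - w e.2.1) L' rfl
        (fun e₁ he₁ => hL e₁ (hperm.mem_iff.2
          (List.mem_cons_of_mem _ (List.mem_cons_of_mem _ he₁)))) (by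
        have h6 : ((q : K) ^ s) ^ c = ((q : K) ^ s) ^ (w e.2.1) *
            ((q : K) ^ s) ^ (c - w e.2.1) := zpow_split hQ0 c _
        rw [h3, h6, mul_assoc] at hrel
        exact mul_left_cancel₀ (pow_ne_zero _ hQ0) hrel)
      refine ⟨w e.2.1 + l, by rw [h3, hkv, pow_add], ?_⟩
      rw [hb']
      refine Submodule.smul_mem _ _ ?_
      rw [List.map_cons, List.prod_cons, List.map_cons, List.prod_cons, ← mul_assoc]
      exact mul_mem_GK (pair_mem q hX hS hcm hq hf hno hs (hL e heL) (hL e' heL') hgood.1 hgood.2)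
        h5

include hX hS hcm hq hf hno hs in
/-- **Existence of a good basis.** -/
theorem exists_good_basis {W : 𝒱.Obj} {πW : W ⟶ W} (hW : Stm.IsProductOf X π W πW)
    (hπ : IsFrobenius C πW (q ^ s)) :
    ∃ (n : ℕ) (b : Basis (Fin n) K (H.A W)) (α : Fin n → K),
      (∀ t, H.pull πW (b t) = α t • b t) ∧
      (∀ t, ∃ (m : ℕ) (L : List (Lb K f)), α t = ((q ^ s : ℕ) : K) ^ m *
        (L.map (fun y => (y.2 : K) ^ s)).prod) ∧
      ∀ (χ : ℚ[X]), χ ≠ 0 → RankLEOver E r {ρ : ℂ | aeval ρ χ = 0} → ∀ ρ : K, aeval ρ χ = 0 →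
        ∀ t (c : ℤ), α t * ρ = ((q ^ s : ℕ) : K) ^ c →
          ∃ l : ℕ, α t = ((q ^ s : ℕ) : K) ^ l ∧ b t ∈ GK H W l := by
  have hfin := hS.finite W
  obtain ⟨b₀, hb₀, hspan, hli⟩ := Submodule.exists_fun_fin_finrank_span_eq K
    (Mono X π s w f H πW)
  have hspan' := hspan.trans (span_mono q hX hS hW)
  let b := Basis.mk hli (by rw [hspan'])
  have hbt : ∀ t, b t = b₀ t := fun t => by rw [Basis.mk_apply]
  choose m a L ha hL hbL using hb₀
  have hQ : ((q ^ s : ℕ) : K) = (q : K) ^ s := by push_cast; rfl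
  have hQ0 : (q : K) ^ s ≠ 0 := pow_ne_zero _ (by exact_mod_cast hq)
  refine ⟨_, b, fun t => ((q ^ s : ℕ) : K) ^ m t * ((L t).map (fun e => (e.2.2 : K) ^ s)).prod,
    fun t => ?_, fun t => ⟨m t, (L t).map Prod.snd, by rw [List.map_map]; rfl⟩, ?_⟩
  · rw [hbt, hbL, map_mul, GK_eigen hπ (ha t), list_eigen (L t) (hL t), smul_mul_smul_comm]
  · intro χ hχ hrank ρ hρ t c hc
    obtain ⟨l, h1, h2⟩ := list_mem q hX hS hcm hq hf hno hs (πW := πW) hχ hrank hρ _ (c - m t)
      (L t) rfl (hL t) (by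
        rw [hQ] at hc
        rw [zpow_sub₀ hQ0, ← hc, zpow_natCast]
        field_simp)
    refine ⟨m t + l, by dsimp only; rw [h1, hQ, pow_add], ?_⟩
    rw [hbt, hbL]
    exact mul_mem_GK (ha t) h2

end Pool.Agent.T2h14.PW
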