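import Mathlib
import Pool.Agent.T2h14.PW.Stm
import Pool.Agent.T2h14.NR.Bridge

/-!
# Reduction to weight one
-/

set_option autoImplicit false
set_option linter.unusedSectionVars false

namespace Pool.Agent.T2h14.PW

open Polynomial Module Pool.Agent.W521.Descent Pool.Agent.T2h14.NR.Stm

/-- Conjugates of a power. -/
theorem conj_pow {ρ : ℂ} {χ : ℚ[X]} (hχ : χ ≠ 0) (hρ : aeval ρ χ = 0) (M : ℕ) {x : ℂ}
    (hx : aeval x (minpoly ℚ (ρ ^ M)) = 0) : ∃ y : ℂ, aeval y χ = 0 ∧ x = y ^ M := by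
  have hmem : ∀ {z : ℂ} {p : ℚ[X]}, p ≠ 0 → aeval z p = 0 → z ∈ QBar := by
    intro z p hp hz
    rw [mem_algebraicClosure_iff]
    exact ⟨p, hp, hz⟩
  have hρQ := hmem hχ hρ
  have hint : IsIntegral ℚ ρ := (isAlgebraic_iff_isIntegral).1 ⟨χ, hχ, hρ⟩
  have hintM : IsIntegral ℚ (ρ ^ M) := hint.pow M
  have hxQ := hmem (minpoly.ne_zero hintM) hx
  let ρ' : QBar := ⟨ρ, hρQ⟩
  let x' : QBar := ⟨x, hxQ⟩
  have hmin : minpoly ℚ (ρ' ^ M) = minpoly ℚ (ρ ^ M) := by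
    have h1 := minpoly.algebraMap_eq (A := ℚ) (algebraMap QBar ℂ).injective (ρ' ^ M)
    rw [← h1, map_pow]
    rfl
  have hx' : aeval x' (minpoly ℚ (ρ' ^ M)) = 0 := by
    rw [hmin]
    apply (algebraMap QBar ℂ).injective
    rw [map_zero, ← Polynomial.aeval_algebraMap_apply]
    exact hx
  have halg : IsAlgebraic ℚ (ρ' ^ M) := by
    have : Algebra.IsAlgebraic ℚ QBar := algebraicClosure.isAlgebraic ℚ ℂ
    exact Algebra.IsAlgebraic.isAlgebraic _
  obtain ⟨σ, hσ⟩ := minpoly.exists_algEquiv_of_root' halg hx'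
  refine ⟨(σ ρ' : QBar), ?_, ?_⟩
  · have h1 : aeval (σ ρ') χ = 0 := by
      have h2 : aeval ρ' χ = 0 := by
        apply (algebraMap QBar ℂ).injective
        rw [map_zero, ← Polynomial.aeval_algebraMap_apply]
        exact hρ
      have h3 := Polynomial.aeval_algHom_apply (σ : QBar →ₐ[ℚ] QBar) ρ' χ
      rw [h2, map_zero] at h3
      exact h3
    have h2 := Polynomial.aeval_algebraMap_apply ℂ (σ ρ') χ
    rw [h1, map_zero] at h2
    exact h2
  · have h1 : x' = (σ ρ') ^ M := by rw [← map_pow, hσ]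
    exact congrArg (fun y : QBar => (y : ℂ)) h1

theorem rankLE_pow {E : IntermediateField ℚ ℂ} {r : ℕ} {S S' : Set ℂ} (M : ℕ)
    (h : RankLE E r S) (hS : ∀ x ∈ S', ∃ y ∈ S, x = y ^ M) : RankLE E r S' := by
  obtain ⟨u, hu, h⟩ := h
  refine ⟨u, hu, fun x hx => ?_⟩
  obtain ⟨y, hy, rfl⟩ := hS x hx
  obtain ⟨N, a, m, hN, haE, ha0, hy2⟩ := h y hy
  refine ⟨N, a ^ M, fun j => m j * M, hN, pow_mem haE M, pow_ne_zero _ ha0, ?_⟩
  rw [← pow_mul, mul_comm M N, pow_mul, hy2, mul_pow, ← Finset.prod_pow]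
  congr 1
  exact Finset.prod_congr rfl fun j _ => by rw [zpow_mul, zpow_natCast]

theorem conj_root {p : ℤ[X]} {z : ℂ} (h : aeval z p = 0) :
    aeval ((starRingEnd ℂ) z) p = 0 := by
  have h1 := Polynomial.hom_eval₂ p (algebraMap ℤ ℂ) (starRingEnd ℂ) z
  rw [RingHom.ext_int ((starRingEnd ℂ).comp (algebraMap ℤ ℂ)) (algebraMap ℤ ℂ)] at h1
  have h2 : eval₂ (algebraMap ℤ ℂ) z p = 0 := h
  rw [h2, map_zero] at h1
  exact h1.symm

variable {I : Type} {q r M : ℕ} {w e : I → ℕ} {f F : I → ℤ[X]} {E : IntermediateField ℚ ℂ}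

/-- If `Z ^ 2 = Q` then there are relations. -/
theorem sq_ne {Q : ℕ} (hQ : Q ≠ 0) (hNR : Pool.Agent.T2h14.NR.Stm.NoRelations E Q r F) {i : I} {Z : ℂ}
    (hZ : aeval Z (F i) = 0) : Z * Z ≠ (Q : ℂ) := by
  intro h
  have hQC : (Q : ℂ) ≠ 0 := by exact_mod_cast hQ
  have hZ0 : Z ≠ 0 := by
    rintro rfl
    rw [mul_zero] at h
    exact hQC h.symm
  have hχ : (Polynomial.X ^ 2 - Polynomial.C ((Q : ℚ)⁻¹) : ℚ[X]) ≠ 0 :=
    Polynomial.X_pow_sub_C_ne_zero two_pos _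
  have hroot : ∀ ρ : ℂ, aeval ρ (Polynomial.X ^ 2 - Polynomial.C ((Q : ℚ)⁻¹) : ℚ[X]) = 0 →
      ρ ^ 2 = (Q : ℂ)⁻¹ := by
    intro ρ hρ
    rw [map_sub, map_pow, aeval_X, aeval_C, sub_eq_zero] at hρ
    rw [hρ]
    simp
  obtain ⟨k, l, hkl, -⟩ := hNR _ hχ ⟨fun _ => 1, fun _ => one_ne_zero, fun ρ hρ =>
    ⟨2, (Q : ℂ)⁻¹, fun _ => 0, two_pos, inv_mem (natCast_mem E Q), inv_ne_zero hQC, by
      rw [hroot ρ hρ]
      simp⟩⟩ Z⁻¹ (by
      rw [map_sub, map_pow, aeval_X, aeval_C, sub_eq_zero, inv_pow, sq, h]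
      simp) 1 one_pos 1 one_pos 0 1 one_pos (fun _ => Z) (fun _ => ⟨i, hZ⟩) (by
      simp [hZ0])
  exact hkl (Subsingleton.elim _ _)

/-- **Reduction to weight one.** -/
theorem noRelations_of (hq : q ≠ 0) (hM : 0 < M) (he : ∀ i, e i * w i = M)
    (hNR : Pool.Agent.T2h14.NR.Stm.NoRelations E (q ^ M) r F)
    (hroot : ∀ (i : I) (z : ℂ), aeval z (f i) = 0 → aeval (z ^ e i) (F i) = 0)
    (habs : ∀ (i : I) (z : ℂ), aeval z (F i) = 0 → ‖z‖ ^ 2 = (q ^ M : ℕ))
    (hdis : ∀ (i j : I) (z : ℂ), i ≠ j → aeval z (F i) = 0 → aeval z (F j) ≠ 0)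
    (hinj : ∀ (i : I) (z z' : ℂ), aeval z (f i) = 0 → aeval z' (f i) = 0 → z ^ e i = z' ^ e i →
      z = z') : Stm.NoRelations E q r w f := by
  classical
  intro χ hχ hrank ρ hρ s hs n hn c N hN i z hz hrel
  have hw : ∀ i, 0 < w i := fun i => by
    rcases Nat.eq_zero_or_pos (w i) with h | h
    · have := he i
      rw [h, mul_zero] at this
      omega
    · exact h
  have hep : ∀ i, 0 < e i := fun i => by
    rcases Nat.eq_zero_or_pos (e i) with h | h
    · have := he i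
      rw [h, zero_mul] at this
      omega
    · exact h
  have hint : IsIntegral ℚ ρ := (isAlgebraic_iff_isIntegral).1 ⟨χ, hχ, hρ⟩
  let T := Σ k : Fin n, Fin (w (i k))
  let eT : T ≃ Fin (Fintype.card T) := Fintype.equivFin T
  have hT : 0 < Fintype.card T := Fintype.card_pos_iff.2 ⟨⟨⟨0, hn⟩, ⟨0, hw _⟩⟩⟩
  have hcast : ((q ^ M : ℕ) : ℂ) = (q : ℂ) ^ M := by push_cast; rfl
  obtain ⟨t, t', htt, hpair⟩ := hNR (minpoly ℚ (ρ ^ M)) (minpoly.ne_zero (hint.pow M))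
    (rankLE_pow M hrank fun x hx => conj_pow hχ hρ M hx) (ρ ^ M) (minpoly.aeval ℚ _) s hs
    (Fintype.card T) hT c N hN (fun t => z (eT.symm t).1 ^ e (i (eT.symm t).1))
    (fun t => ⟨i (eT.symm t).1, hroot _ _ (hz _)⟩) (by
    have h1 : ∏ t, z (eT.symm t).1 ^ e (i (eT.symm t).1) = (∏ k, z k) ^ M := by
      rw [Equiv.prod_comp eT.symm (fun p : T => z p.1 ^ e (i p.1)), Fintype.prod_sigma,
        ← Finset.prod_pow]
      refine Finset.prod_congr rfl fun k _ => ?_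
      dsimp only
      rw [Finset.prod_const, Finset.card_univ, Fintype.card_fin, ← pow_mul, he]
    have h2 := congrArg (fun x => x ^ M) hrel
    beta_reduce at h2
    rw [h1, hcast]
    have h3 : (((∏ k, z k) ^ M) ^ s * ρ ^ M) ^ N = (((∏ k, z k) ^ s * ρ) ^ N) ^ M := by ring
    have h4 : ((((q : ℂ) ^ M) ^ s) ^ c) ^ N = ((((q : ℂ) ^ s) ^ c) ^ N) ^ M := by
      have h5 : (((q : ℂ) ^ M) ^ s) ^ c = (((q : ℂ) ^ s) ^ c) ^ M := by
        rw [← pow_mul, mul_comm M s, pow_mul, ← zpow_natCast (((q : ℂ) ^ s) ^ c),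
          ← zpow_natCast ((q : ℂ) ^ s) M, ← zpow_mul, ← zpow_mul, mul_comm]
      rw [h5]
      ring
    rw [h3, h4, h2])
  set p := eT.symm t with hp
  set p' := eT.symm t' with hp'
  have hpp : p ≠ p' := fun h => htt (eT.symm.injective h)
  have hFk := hroot (i p.1) (z p.1) (hz p.1)
  have hFl := hroot (i p'.1) (z p'.1) (hz p'.1)
  have hkl : p.1 ≠ p'.1 := by
    intro h
    rw [← h] at hpair
    exact sq_ne (pow_ne_zero _ hq) hNR hFk hpair
  -- the complex conjugate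
  have hbar : ∀ {Q : ℝ} {Z : ℂ}, ‖Z‖ ^ 2 = Q → Z * (starRingEnd ℂ) Z = (Q : ℂ) := by
    intro Q Z h
    rw [Complex.mul_conj, ← h, Complex.normSq_eq_norm_sq]
  have h1 : z p'.1 ^ e (i p'.1) = (starRingEnd ℂ) (z p.1 ^ e (i p.1)) := by
    have h2 := hbar (habs _ _ hFk)
    have h3 : z p.1 ^ e (i p.1) ≠ 0 := by
      intro h0
      rw [h0, zero_mul] at hpair
      exact (Nat.cast_ne_zero.2 (pow_ne_zero M hq)) hpair.symm
    refine mul_left_cancel₀ h3 ?_
    rw [h2, hpair]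
    push_cast
    rfl
  have hii : i p.1 = i p'.1 := by
    by_contra hne
    refine hdis _ _ _ hne (conj_root hFk) ?_
    rw [← h1]
    exact hFl
  refine ⟨p.1, p'.1, hkl, hii, ?_⟩
  have h2 : z p'.1 = (starRingEnd ℂ) (z p.1) := by
    refine hinj (i p.1) _ _ (by rw [hii]; exact hz _) (conj_root (hz _)) ?_
    rw [← map_pow, ← h1, hii]
  have h3 : ‖z p.1‖ ^ 2 = ((q : ℝ) ^ w (i p.1)) := by
    have h4 := habs _ _ hFk
    have h5 : (‖z p.1‖ ^ 2) ^ e (i p.1) = ((q : ℝ) ^ w (i p.1)) ^ e (i p.1) := by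
      rw [norm_pow] at h4
      rw [← pow_mul, ← pow_mul, mul_comm (w _), he, mul_comm 2, pow_mul, h4]
      push_cast
      rfl
    exact (pow_left_inj₀ (by positivity) (by positivity) (hep _).ne').1 h5
  rw [h2, hbar h3]
  push_cast
  rfl

/-- Injectivity on the roots. -/
theorem inj_of {p P : ℤ[X]} {d m : ℕ} (hp : p.Monic) (hd : p.natDegree = d) (hd0 : 0 < d)
    (hP : P.Monic) (hPd : P.natDegree = d) (hirr : Irreducible (P.map (Int.castRingHom ℚ)))
    (hroot : ∀ z : ℂ, aeval z p = 0 → aeval (z ^ m) P = 0) (z z' : ℂ) (hz : aeval z p = 0)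
    (hz' : aeval z' p = 0) (h : z ^ m = z' ^ m) : z = z' := by
  classical
  set p' : ℚ[X] := p.map (Int.castRingHom ℚ) with hp'
  set P' : ℚ[X] := P.map (Int.castRingHom ℚ) with hP'
  have hp0 : p' ≠ 0 := (hp.map _).ne_zero
  have hP0 : P' ≠ 0 := (hP.map _).ne_zero
  have hev : ∀ (y : ℂ) (g : ℤ[X]), aeval y (g.map (Int.castRingHom ℚ)) = aeval y g := by
    intro y g
    exact aeval_map_algebraMap (R := ℤ) ℚ y g
  have hmemp : ∀ y : ℂ, y ∈ (p'.aroots ℂ).toFinset ↔ aeval y p = 0 := by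
    intro y
    rw [Multiset.mem_toFinset, mem_aroots, hev]
    exact ⟨fun h => h.2, fun h => ⟨hp0, h⟩⟩
  have hmemP : ∀ y : ℂ, y ∈ (P'.aroots ℂ).toFinset ↔ aeval y P = 0 := by
    intro y
    rw [Multiset.mem_toFinset, mem_aroots, hev]
    exact ⟨fun h => h.2, fun h => ⟨hP0, h⟩⟩
  have hcardP : (P'.aroots ℂ).toFinset.card = d := by
    have h1 := card_rootSet_eq_natDegree (K := ℂ) hirr.separable (IsAlgClosed.splits _)
    simp_rw [rootSet_def, Finset.coe_sort_coe, Fintype.card_coe] at h1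
    rw [h1, hP.natDegree_map, hPd]
  have hcardp : (p'.aroots ℂ).toFinset.card ≤ d := by
    refine (Multiset.toFinset_card_le _).trans ?_
    refine (Polynomial.card_roots' _).trans ?_
    rw [natDegree_map, hp.natDegree_map, hd]
  refine Finset.inj_on_of_surj_on_of_card_le (s := (p'.aroots ℂ).toFinset)
    (t := (P'.aroots ℂ).toFinset) (fun y _ => y ^ m) (fun y hy => ?_) (fun x hx => ?_) ?_
    ((hmemp z).2 hz) ((hmemp z').2 hz') h
  · exact (hmemP _).2 (hroot y ((hmemp y).1 hy))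
  · -- surjectivity
    have hx' := (hmemP x).1 hx
    have h1 : aeval (z ^ m) P = 0 := hroot z hz
    have hmin : minpoly ℚ (z ^ m) = P' := by
      refine (minpoly.eq_of_irreducible_of_monic hirr ?_ (hP.map _)).symm
      rw [hev]
      exact h1
    have h2 : aeval x (minpoly ℚ (z ^ m)) = 0 := by
      rw [hmin, hev]
      exact hx'
    obtain ⟨y, hy, hy2⟩ := conj_pow hp0 (ρ := z) (by rw [hev]; exact hz) m h2
    rw [hev] at hy
    exact ⟨y, (hmemp y).2 hy, hy2.symm⟩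
  · rw [hcardP]
    exact hcardp

/-- Distinct irreducible polynomials with different splitting fields have no common roots. -/
theorem disjoint_of {P P' : ℤ[X]} (hP : P.Monic) (hP' : P'.Monic)
    (hirr : Irreducible (P.map (Int.castRingHom ℚ)))
    (hirr' : Irreducible (P'.map (Int.castRingHom ℚ))) (hne : splitField P ≠ splitField P') {z : ℂ}
    (hz : aeval z P = 0) (hz' : aeval z P' = 0) : False := by
  have hev : ∀ (y : ℂ) (g : ℤ[X]), aeval y (g.map (Int.castRingHom ℚ)) = aeval y g := by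
    intro y g
    exact aeval_map_algebraMap (R := ℤ) ℚ y g
  have h1 := minpoly.eq_of_irreducible_of_monic hirr (x := z) (by rw [hev]; exact hz) (hP.map _)
  have h2 := minpoly.eq_of_irreducible_of_monic hirr' (x := z) (by rw [hev]; exact hz')
    (hP'.map _)
  have h3 : P = P' := Polynomial.map_injective (Int.castRingHom ℚ) Int.cast_injective
    (h1.trans h2.symm)
  exact hne (by rw [h3])

/-- **The explicit family.** -/
theorem explicit [Fintype I] (hq : 1 < q) (hM : 0 < M) (he : ∀ i, e i * w i = M) (g : I → ℕ)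
    (hF : ∀ i, F i ∈ weilPolys (q ^ M) (g i))
    (hirr : ∀ i, Irreducible ((F i).map (Int.castRingHom ℚ)))
    (hss : ∀ i, NotSupersingular (q ^ M) (F i))
    (hodd : ∀ i, ((g i).Prime ∧ g i ≠ 2 ∧ NoImaginaryQuadratic (F i)) ∨
      IrreducibleOdd (q ^ M) (F i))
    (hsplit : ∀ i j, i ≠ j → splitField (F i) ≠ splitField (F j))
    (hf : ∀ i, (f i).Monic) (hfd : ∀ i, (f i).natDegree = 2 * g i)
    (hroot : ∀ (i : I) (z : ℂ), aeval z (f i) = 0 → aeval (z ^ e i) (F i) = 0)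
    [Normal ℚ E] (hE : ∀ i, ¬ splitField (F i) ≤ E) (hr : ∀ i, r < g i) :
    Stm.NoRelations E q r w f := by
  have hQ : 1 < q ^ M := Nat.one_lt_pow hM.ne' hq
  have hNR := Pool.Agent.T2h14.NR.stm_family (q ^ M) hQ g F hF hirr hss hodd hsplit E hE r hr
  refine noRelations_of (by omega) hM he (F := F) hNR hroot (fun i z hz => ?_)
    (fun i j z hij h1 h2 => disjoint_of (hF i).1 (hF j).1 (hirr i) (hirr j) (hsplit i j hij) h1 h2)
    fun i z z' hz hz' h => inj_of (hf i) (hfd i) (by have := hr i; omega) (hF i).1 (hF i).2.1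
      (hirr i) (hroot i) z z' hz hz' h
  exact (hF i).2.2.2 z hz

theorem explicitFamily [Fintype I] (hq : 1 < q) (hf : ∀ i, (f i).Monic) [Normal ℚ E]
    (h : Stm.ExplicitFamily E q r w f) : Stm.NoRelations E q r w f := by
  obtain ⟨M, e, g, F, hM, h⟩ := h
  exact explicit hq hM (fun i => (h i).1) g (fun i => (h i).2.1) (fun i => (h i).2.2.1)
    (fun i => (h i).2.2.2.1) (fun i => (h i).2.2.2.2.1) (fun i => (h i).2.2.2.2.2.1) hf
    (fun i => (h i).2.2.2.2.2.2.2.2.1) (fun i => (h i).2.2.2.2.2.2.2.2.2)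
    (fun i => (h i).2.2.2.2.2.2.1) (fun i => (h i).2.2.2.2.2.2.2.1)

end Pool.Agent.T2h14.PW
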